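import Mathlib

set_option autoImplicit false

namespace Pool.Agent.Lib.MP_829c31_lc

open Set Cardinal Topology Filter

/-- A closed interval inside the open unit interval, coded by its endpoints. -/
def Intv : Type := {p : ℝ × ℝ // 0 < p.1 ∧ p.1 < p.2 ∧ p.2 < 1}

/-- The set of points of a coded interval. -/
def Intv.ic (I : Intv) : Set ℝ := Icc I.1.1 I.1.2

/-- The function minus a linear function of rational slope. -/
def phi (h : ℝ → ℝ) (q : ℚ) (x : ℝ) : ℝ := h x - q * x

/-- Every open subinterval holds two continuity points with different `phi` values. -/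
def NonAff (h : ℝ → ℝ) : Prop :=
  ∀ q : ℚ, ∀ a b : ℝ, 0 ≤ a → a < b → b ≤ 1 →
    ∃ x ∈ Ioo a b, ∃ y ∈ Ioo a b, ContinuousAt h x ∧ ContinuousAt h y ∧ phi h q x ≠ phi h q y

theorem exists_sub (I : Intv) (x : ℝ) (hx : x ∈ Ioo I.1.1 I.1.2) (S : Set ℝ) (hS : S ∈ 𝓝 x) :
    ∃ I' : Intv, I'.ic ⊆ I.ic ∧ I'.ic ⊆ S := by
  obtain ⟨ε, hε, hball⟩ := Metric.mem_nhds_iff.1 hS
  obtain ⟨h0, h1, h2⟩ := I.2
  obtain ⟨hx1, hx2⟩ := hx
  set δ := min (ε / 2) (min (x - I.1.1) (I.1.2 - x)) with hδ
  have hδpos : 0 < δ := by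
    refine lt_min (by linarith) (lt_min (by linarith) (by linarith))
  have hδ1 : δ ≤ ε / 2 := min_le_left _ _
  have hδ2 : δ ≤ x - I.1.1 := (min_le_right _ _).trans (min_le_left _ _)
  have hδ3 : δ ≤ I.1.2 - x := (min_le_right _ _).trans (min_le_right _ _)
  refine ⟨⟨(x - δ, x + δ), ?_, ?_, ?_⟩, ?_, ?_⟩
  · simp only; linarith
  · simp only; linarith
  · simp only; linarith
  · intro y hy
    simp only [Intv.ic, mem_Icc] at hy ⊢
    exact ⟨by linarith [hy.1], by linarith [hy.2]⟩
  · intro y hy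
    simp only [Intv.ic, mem_Icc] at hy
    apply hball
    rw [Metric.mem_ball, Real.dist_eq, abs_lt]
    exact ⟨by linarith [hy.1], by linarith [hy.2]⟩

theorem shrink_one {h : ℝ → ℝ} (hC : NonAff h) (q : ℚ) (I J : Intv) :
    ∃ I' J' : Intv, I'.ic ⊆ I.ic ∧ J'.ic ⊆ J.ic ∧
      ∀ x ∈ I'.ic, ∀ y ∈ J'.ic, phi h q x ≠ phi h q y := by
  obtain ⟨x1, hx1, x2, hx2, hc1, hc2, hne⟩ := hC q I.1.1 I.1.2 I.2.1.le I.2.2.1 I.2.2.2.le
  obtain ⟨y, hy, -, -, hcy, -, -⟩ := hC q J.1.1 J.1.2 J.2.1.le J.2.2.1 J.2.2.2.le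
  have key : ∃ x ∈ Ioo I.1.1 I.1.2, ContinuousAt h x ∧ phi h q x ≠ phi h q y := by
    by_cases h1 : phi h q x1 = phi h q y
    · refine ⟨x2, hx2, hc2, ?_⟩
      rw [← h1]
      exact hne.symm
    · exact ⟨x1, hx1, hc1, h1⟩
  obtain ⟨x, hx, hcx, hxy⟩ := key
  have hcont : ∀ u, ContinuousAt h u → ContinuousAt (phi h q) u := by
    intro u hu
    exact hu.sub (continuous_const.mul continuous_id).continuousAt
  obtain ⟨U, W, hU, hW, hUx, hWy, hdisj⟩ := t2_separation hxy
  obtain ⟨I', hI', hI'U⟩ := exists_sub I x hx _ ((hcont x hcx).preimage_mem_nhds (hU.mem_nhds hUx))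
  obtain ⟨J', hJ', hJ'W⟩ := exists_sub J y hy _ ((hcont y hcy).preimage_mem_nhds (hW.mem_nhds hWy))
  refine ⟨I', J', hI', hJ', ?_⟩
  intro u hu v hv huv
  have h1 := hI'U hu
  have h2 := hJ'W hv
  simp only [mem_preimage] at h1 h2
  rw [huv] at h1
  exact hdisj.le_bot ⟨h1, h2⟩

theorem shrink_fin {h : ℝ → ℝ} (hC : NonAff h) {κ : Type} [DecidableEq κ]
    (T : Finset (κ × κ × ℚ)) (J : κ → Intv) (hT : ∀ t ∈ T, t.1 ≠ t.2.1) :
    ∃ J' : κ → Intv, (∀ k, (J' k).ic ⊆ (J k).ic) ∧
      ∀ t ∈ T, ∀ x ∈ (J' t.1).ic, ∀ y ∈ (J' t.2.1).ic, phi h t.2.2 x ≠ phi h t.2.2 y := by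
  induction T using Finset.induction_on with
  | empty => exact ⟨J, fun _ => Subset.rfl, by simp⟩
  | insert t T ht ih =>
    obtain ⟨J1, hJ1, hJ1T⟩ := ih (fun t ht => hT t (Finset.mem_insert_of_mem ht))
    obtain ⟨I', I'', hI', hI'', hsep⟩ := shrink_one hC t.2.2 (J1 t.1) (J1 t.2.1)
    have hne : t.1 ≠ t.2.1 := hT t (Finset.mem_insert_self _ _)
    refine ⟨Function.update (Function.update J1 t.1 I') t.2.1 I'', ?_, ?_⟩
    · intro k
      by_cases h2 : k = t.2.1
      · subst h2
        simp only [Function.update_self]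
        exact hI''.trans (hJ1 _)
      · rw [Function.update_of_ne h2]
        by_cases h1 : k = t.1
        · subst h1
          simp only [Function.update_self]
          exact hI'.trans (hJ1 _)
        · rw [Function.update_of_ne h1]
          exact hJ1 k
    · have hsub : ∀ k, (Function.update (Function.update J1 t.1 I') t.2.1 I'' k).ic ⊆ (J1 k).ic := by
        intro k
        by_cases h2 : k = t.2.1
        · subst h2
          simp only [Function.update_self]
          exact hI''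
        · rw [Function.update_of_ne h2]
          by_cases h1 : k = t.1
          · subst h1
            simp only [Function.update_self]
            exact hI'
          · rw [Function.update_of_ne h1]
      intro s hs x hx y hy
      rcases Finset.mem_insert.1 hs with rfl | hs
      · rw [Function.update_of_ne hne, Function.update_self] at hx
        rw [Function.update_self] at hy
        exact hsep x hx y hy
      · exact hJ1T s hs x (hsub _ hx) y (hsub _ hy)

theorem step_exists {h : ℝ → ℝ} (hC : NonAff h) (e : ℕ → ℚ) (n : ℕ) (J : (Fin n → Bool) → Intv) :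
    ∃ J' : (Fin (n + 1) → Bool) → Intv,
      (∀ s, (J' s).ic ⊆ (J (fun i => s i.castSucc)).ic) ∧
      ∀ s s', s ≠ s' → ∀ i ≤ n, ∀ x ∈ (J' s).ic, ∀ y ∈ (J' s').ic,
        phi h (e i) x ≠ phi h (e i) y := by
  classical
  obtain ⟨J', hJ', hJ'T⟩ := shrink_fin hC
    ((((Finset.univ : Finset ((Fin (n + 1) → Bool) × (Fin (n + 1) → Bool))) ×ˢ
      Finset.range (n + 1)).image (fun p => (p.1.1, p.1.2, e p.2))).filter
        (fun t => t.1 ≠ t.2.1)) (fun s => J (fun i => s i.castSucc)) (by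
          intro t ht
          exact (Finset.mem_filter.1 ht).2)
  refine ⟨J', hJ', ?_⟩
  intro s s' hne i hi
  refine hJ'T (s, s', e i) ?_
  rw [Finset.mem_filter]
  refine ⟨?_, hne⟩
  rw [Finset.mem_image]
  refine ⟨((s, s'), i), ?_, rfl⟩
  simp only [Finset.mem_product, Finset.mem_univ, Finset.mem_range, true_and]
  omega

/-- The fusion scheme. -/
theorem exists_scheme {h : ℝ → ℝ} (hC : NonAff h) (e : ℕ → ℚ) :
    ∃ J : (n : ℕ) → (Fin n → Bool) → Intv,
      (∀ n s, (J (n + 1) s).ic ⊆ (J n (fun i => s i.castSucc)).ic) ∧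
      ∀ n s s', s ≠ s' → ∀ i ≤ n, ∀ x ∈ (J (n + 1) s).ic, ∀ y ∈ (J (n + 1) s').ic,
        phi h (e i) x ≠ phi h (e i) y := by
  choose F hF1 hF2 using fun n J => step_exists hC e n J
  let J0 : (Fin 0 → Bool) → Intv := fun _ => ⟨(1/4, 3/4), by norm_num, by norm_num, by norm_num⟩
  let J : (n : ℕ) → (Fin n → Bool) → Intv := fun n => Nat.rec J0 (fun n J => F n J) n
  refine ⟨J, ?_, ?_⟩
  · intro n s
    exact hF1 n (J n) s
  · intro n s s' hne i hi
    exact hF2 n (J n) s s' hne i hi

theorem exists_cantor {h : ℝ → ℝ} (hC : NonAff h) :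
    ∃ x : (ℕ → Bool) → ℝ, (∀ f, x f ∈ Ioo (0:ℝ) 1) ∧
      ∀ (q : ℚ) f f', f ≠ f' → phi h q (x f) ≠ phi h q (x f') := by
  obtain ⟨e, he⟩ := exists_surjective_nat ℚ
  obtain ⟨J, hJ1, hJ2⟩ := exists_scheme hC e
  have hne : ∀ f : ℕ → Bool, (⋂ n, (J n (fun i => f i)).ic).Nonempty := by
    intro f
    apply IsCompact.nonempty_iInter_of_sequence_nonempty_isCompact_isClosed
    · intro n
      exact hJ1 n (fun i => f i)
    · intro n
      exact nonempty_Icc.2 (J n _).2.2.1.le
    · exact isCompact_Icc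
    · intro n
      exact isClosed_Icc
  choose x hx using hne
  have hx' : ∀ f n, x f ∈ (J n (fun i => f i)).ic := fun f n => mem_iInter.1 (hx f) n
  refine ⟨x, ?_, ?_⟩
  · intro f
    have h1 := hx' f 0
    have h2 := (J 0 (fun i => f i)).2
    simp only [Intv.ic, mem_Icc] at h1
    exact ⟨lt_of_lt_of_le h2.1 h1.1, lt_of_le_of_lt h1.2 h2.2.2⟩
  · intro q f f' hff'
    obtain ⟨i, rfl⟩ := he q
    obtain ⟨m, hm⟩ := Function.ne_iff.1 hff'
    have hs : (fun j : Fin (max i m + 1) => f j) ≠ (fun j : Fin (max i m + 1) => f' j) := by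
      intro heq
      apply hm
      have := congrFun heq ⟨m, by omega⟩
      simpa using this
    exact hJ2 (max i m) _ _ hs i (le_max_left _ _) _ (hx' f _) _ (hx' f' _)

theorem count_contra {h : ℝ → ℝ} (V : Submodule ℚ ℝ) (hV : #V < 𝔠)
    (hbad : ∀ x ∈ Ioo (0:ℝ) 1, x ∉ V → ∃ q : ℚ, ∃ v ∈ V, h x = q * x + v)
    (x : (ℕ → Bool) → ℝ) (hx : ∀ f, x f ∈ Ioo (0:ℝ) 1)
    (hinj : ∀ (q : ℚ) f f', f ≠ f' → phi h q (x f) ≠ phi h q (x f')) : False := by
  classical
  choose! q v hv hq using hbad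
  let G : (ℕ → Bool) → V ⊕ (ℚ × V) := fun f =>
    if hf : x f ∈ V then Sum.inl ⟨x f, hf⟩ else Sum.inr (q (x f), ⟨v (x f), hv _ (hx f) hf⟩)
  have hG : Function.Injective G := by
    intro f f' hff'
    by_contra hne
    by_cases h1 : x f ∈ V <;> by_cases h2 : x f' ∈ V
    · simp only [G, h1, h2, dif_pos, Sum.inl.injEq, Subtype.mk.injEq] at hff'
      have := hinj 0 f f' hne
      rw [hff'] at this
      exact this rfl
    · simp [G, h1, h2] at hff'
    · simp [G, h1, h2] at hff'
    · simp only [G, h1, h2, dif_neg, not_false_eq_true, Sum.inr.injEq, Prod.mk.injEq,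
        Subtype.mk.injEq] at hff'
      apply hinj (q (x f)) f f' hne
      have e1 := hq _ (hx f) h1
      have e2 := hq _ (hx f') h2
      unfold phi
      rw [e1, e2, hff'.1, hff'.2]
      ring
  have h1 : #(ℕ → Bool) ≤ #(V ⊕ (ℚ × V)) := mk_le_of_injective hG
  have h2 : #(V ⊕ (ℚ × V)) < 𝔠 := by
    rw [mk_sum, mk_prod]
    simp only [lift_id]
    refine add_lt_of_lt aleph0_le_continuum hV (mul_lt_of_lt aleph0_le_continuum ?_ hV)
    rw [Cardinal.mk_eq_aleph0]
    exact aleph0_lt_continuum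
  have h3 : #(ℕ → Bool) = 𝔠 := by simp
  rw [h3] at h1
  exact absurd (h1.trans_lt h2) (lt_irrefl _)

theorem lemmaG {h : ℝ → ℝ} (hh : Antitone h) (V : Submodule ℚ ℝ) (hV : #V < 𝔠)
    (hbad : ∀ x ∈ Ioo (0:ℝ) 1, x ∉ V → ∃ q : ℚ, ∃ v ∈ V, h x = q * x + v) :
    ∃ a b : ℝ, 0 ≤ a ∧ a < b ∧ b ≤ 1 ∧ ∃ q : ℚ, ∃ v ∈ V, ∀ x ∈ Ioo a b, h x = q * x + v := by
  classical
  by_contra hcon
  have hC : NonAff h := by
    intro q a b ha hab hb
    by_contra hno
    push Not at hno
    -- the continuity points are dense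
    have hcount : {x | ¬ ContinuousAt h x}.Countable := hh.countable_not_continuousAt
    have hdense : ∀ u w : ℝ, u < w → ∃ y ∈ Ioo u w, ContinuousAt h y := by
      intro u w huw
      have hd : Dense ({x | ¬ ContinuousAt h x}ᶜ) := hcount.dense_compl ℝ
      obtain ⟨y, hy1, hy2⟩ := hd.exists_mem_open isOpen_Ioo (nonempty_Ioo.2 huw)
      exact ⟨y, hy2, not_not.1 hy1⟩
    obtain ⟨y0, hy0, hy0c⟩ := hdense a b hab
    set c := phi h q y0 with hc
    have hval : ∀ y ∈ Ioo a b, ContinuousAt h y → h y = q * y + c := by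
      intro y hy hyc
      have := hno y hy y0 hy0 hyc hy0c
      rw [← hc] at this
      unfold phi at this
      linarith
    have haff : ∀ x ∈ Ioo a b, h x = q * x + c := by
      intro x hx
      apply le_antisymm
      · -- h x ≤ q x + c : from points to the left
        by_contra hlt
        push Not at hlt
        -- continuity of q*y + c at x
        have hcont : ContinuousAt (fun y : ℝ => (q:ℝ) * y + c) x := by fun_prop
        have hev : ∀ᶠ y in 𝓝 x, (q:ℝ) * y + c < h x := hcont.eventually_lt_const hlt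
        obtain ⟨ε, hε, hball⟩ := Metric.eventually_nhds_iff.1 hev
        obtain ⟨y, hy, hyc⟩ := hdense (max a (x - ε)) x (max_lt hx.1 (by linarith))
        have hy1 : a < y := lt_of_le_of_lt (le_max_left _ _) hy.1
        have hy2 : x - ε < y := lt_of_le_of_lt (le_max_right _ _) hy.1
        have hd : dist y x < ε := by
          rw [Real.dist_eq, abs_lt]
          exact ⟨by linarith, by linarith [hy.2]⟩
        have h1 := hball hd
        have h2 := hval y ⟨hy1, hy.2.trans hx.2⟩ hyc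
        have h3 := hh hy.2.le
        linarith
      · by_contra hlt
        push Not at hlt
        have hcont : ContinuousAt (fun y : ℝ => (q:ℝ) * y + c) x := by fun_prop
        have hev : ∀ᶠ y in 𝓝 x, h x < (q:ℝ) * y + c := hcont.eventually_const_lt hlt
        obtain ⟨ε, hε, hball⟩ := Metric.eventually_nhds_iff.1 hev
        obtain ⟨y, hy, hyc⟩ := hdense x (min b (x + ε)) (lt_min hx.2 (by linarith))
        have hy1 : y < b := lt_of_lt_of_le hy.2 (min_le_left _ _)
        have hy2 : y < x + ε := lt_of_lt_of_le hy.2 (min_le_right _ _)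
        have hd : dist y x < ε := by
          rw [Real.dist_eq, abs_lt]
          exact ⟨by linarith [hy.1], by linarith [hy.1]⟩
        have h1 := hball hd
        have h2 := hval y ⟨hx.1.trans hy.1, hy1⟩ hyc
        have h3 := hh hy.1.le
        linarith
    have hcV : c ∈ V := by
      by_contra hcV
      choose! q' v' hv' hq' using hbad
      -- injection of Ioo a b into V ⊕ (ℚ × V)
      let G : Ioo a b → V ⊕ (ℚ × V) := fun x =>
        if hx : (x:ℝ) ∈ V then Sum.inl ⟨x, hx⟩
        else Sum.inr (q' x, ⟨v' x, hv' _ ⟨ha.trans_lt x.2.1, x.2.2.trans_le hb⟩ hx⟩)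
      have hG : Function.Injective G := by
        rintro ⟨x, hx⟩ ⟨y, hy⟩ hxy
        have hx01 : x ∈ Ioo (0:ℝ) 1 := ⟨ha.trans_lt hx.1, hx.2.trans_le hb⟩
        have hy01 : y ∈ Ioo (0:ℝ) 1 := ⟨ha.trans_lt hy.1, hy.2.trans_le hb⟩
        by_cases h1 : x ∈ V <;> by_cases h2 : y ∈ V
        · simp only [G, h1, h2, dif_pos, Sum.inl.injEq, Subtype.mk.injEq] at hxy
          exact Subtype.ext hxy
        · simp [G, h1, h2] at hxy
        · simp [G, h1, h2] at hxy
        · simp only [G, h1, h2, dif_neg, not_false_eq_true, Sum.inr.injEq, Prod.mk.injEq,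
            Subtype.mk.injEq] at hxy
          have e1 := hq' x hx01 h1
          have e2 := hq' y hy01 h2
          have e3 := haff x hx
          have e4 := haff y hy
          rw [e3] at e1
          rw [e4, ← hxy.1, ← hxy.2] at e2
          have hqne : (q:ℝ) ≠ q' x := by
            intro heq
            apply hcV
            have : c = v' x := by rw [heq] at e1; linarith
            rw [this]
            exact hv' x hx01 h1
          have : ((q:ℝ) - q' x) * (x - y) = 0 := by ring_nf; ring_nf at e1 e2; linarith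
          rcases mul_eq_zero.1 this with h | h
          · exact absurd (sub_eq_zero.1 h) hqne
          · exact Subtype.ext (sub_eq_zero.1 h)
      have h1 : #(Ioo a b) ≤ #(V ⊕ (ℚ × V)) := mk_le_of_injective hG
      have h2 : #(V ⊕ (ℚ × V)) < 𝔠 := by
        rw [mk_sum, mk_prod]
        simp only [lift_id]
        refine add_lt_of_lt aleph0_le_continuum hV (mul_lt_of_lt aleph0_le_continuum ?_ hV)
        rw [Cardinal.mk_eq_aleph0]
        exact aleph0_lt_continuum
      rw [mk_Ioo_real hab] at h1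
      exact absurd (h1.trans_lt h2) (lt_irrefl _)
    exact hcon ⟨a, b, ha, hab, hb, q, c, hcV, haff⟩
  obtain ⟨x, hx, hinj⟩ := exists_cantor hC
  exact count_contra V hV hbad x hx hinj

end Pool.Agent.Lib.MP_829c31_lc
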