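import Mathlib

set_option autoImplicit false

namespace Pool.Agent.Lib.MP_829c31_lc

open Set

/-- The two halving maps of the unit interval. -/
noncomputable def l (b : Bool) (y : ℝ) : ℝ := if b then (y + 1) / 2 else y / 2

/-- The composition of halving maps along a binary word. -/
noncomputable def E : List Bool → ℝ → ℝ
  | [], y => y
  | b :: s, y => l b (E s y)

theorem l_false (y : ℝ) : l false y = y / 2 := by simp [l]
theorem l_true (y : ℝ) : l true y = (y + 1) / 2 := by simp [l]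

theorem l_mem (b : Bool) {y : ℝ} (hy : y ∈ Ioo (0:ℝ) 1) : l b y ∈ Ioo (0:ℝ) 1 := by
  obtain ⟨h0, h1⟩ := hy
  cases b
  · rw [l_false]; exact ⟨by linarith, by linarith⟩
  · rw [l_true]; exact ⟨by linarith, by linarith⟩

theorem l_inj {b b' : Bool} {y y' : ℝ} (hy : y ∈ Ioo (0:ℝ) 1) (hy' : y' ∈ Ioo (0:ℝ) 1)
    (h : l b y = l b' y') : b = b' ∧ y = y' := by
  obtain ⟨h0, h1⟩ := hy
  obtain ⟨h0', h1'⟩ := hy'
  cases b <;> cases b' <;> simp only [l_false, l_true] at h
  · exact ⟨rfl, by linarith⟩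
  · exfalso; linarith
  · exfalso; linarith
  · exact ⟨rfl, by linarith⟩

theorem E_affine (s : List Bool) : ∃ r : ℚ, 0 < r ∧ ∃ c : ℚ, ∀ y : ℝ, E s y = r * y + c := by
  induction s with
  | nil => exact ⟨1, one_pos, 0, fun y => by simp [E]⟩
  | cons b s ih =>
    obtain ⟨r, hr, c, h⟩ := ih
    cases b
    · refine ⟨r / 2, by positivity, c / 2, fun y => ?_⟩
      simp only [E, l_false, h y]
      push_cast
      ring
    · refine ⟨r / 2, by positivity, (c + 1) / 2, fun y => ?_⟩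
      simp only [E, l_true, h y]
      push_cast
      ring

theorem E_strictMono (s : List Bool) : StrictMono (E s) := by
  obtain ⟨r, hr, c, h⟩ := E_affine s
  intro x y hxy
  rw [h x, h y]
  have : (0:ℝ) < r := by exact_mod_cast hr
  nlinarith

theorem exists_word_aux (n : ℕ) : ∀ x ∈ Icc (0:ℝ) 1, ∃ s : List Bool,
    ∀ y ∈ Ioo (0:ℝ) 1, |E s y - x| ≤ (1/2) ^ n := by
  induction n with
  | zero =>
    intro x hx
    refine ⟨[], fun y hy => ?_⟩
    simp only [E, pow_zero]
    rw [abs_le]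
    exact ⟨by linarith [hx.2, hy.1], by linarith [hx.1, hy.2]⟩
  | succ n ih =>
    intro x hx
    by_cases h : x ≤ 1/2
    · obtain ⟨s, hs⟩ := ih (2 * x) ⟨by linarith [hx.1], by linarith⟩
      refine ⟨false :: s, fun y hy => ?_⟩
      have h1 := hs y hy
      simp only [E, l_false]
      rw [abs_le] at h1 ⊢
      rw [pow_succ]
      constructor <;> linarith [h1.1, h1.2]
    · push Not at h
      obtain ⟨s, hs⟩ := ih (2 * x - 1) ⟨by linarith, by linarith [hx.2]⟩
      refine ⟨true :: s, fun y hy => ?_⟩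
      have h1 := hs y hy
      simp only [E, l_true]
      rw [abs_le] at h1 ⊢
      rw [pow_succ]
      constructor <;> linarith [h1.1, h1.2]

theorem exists_word {a b : ℝ} (ha : 0 ≤ a) (hab : a < b) (hb : b ≤ 1) :
    ∃ s : List Bool, ∀ y ∈ Ioo (0:ℝ) 1, E s y ∈ Ioo a b := by
  obtain ⟨n, hn⟩ := exists_pow_lt_of_lt_one (show (0:ℝ) < (b - a) / 2 by linarith)
    (show (1/2:ℝ) < 1 by norm_num)
  obtain ⟨s, hs⟩ := exists_word_aux n ((a + b) / 2) ⟨by linarith, by linarith⟩
  refine ⟨s, fun y hy => ?_⟩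
  have h1 := hs y hy
  rw [abs_le] at h1
  exact ⟨by linarith [h1.1], by linarith [h1.2]⟩

/-- The data obtained from the transfinite construction. -/
structure Datum where
  /-- the index type -/
  ι : Type
  /-- the generators -/
  x : ι → ℝ
  /-- the avoided values -/
  z : ι → ℝ
  /-- the translations -/
  t : ι → ℝ
  /-- the enumeration of the families -/
  Y : ι → List Bool → ℝ
  /-- the coordinate at `x` -/
  μ : ι → ℝ →ₗ[ℚ] ℚ
  /-- the coordinate at `t` -/
  lam : ι → ℝ →ₗ[ℚ] ℚ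
  /-- the coordinate at `z` -/
  ν : ι → ℝ →ₗ[ℚ] ℚ
  Ysurj : Function.Surjective Y
  hx : ∀ ξ, x ξ ∈ Ioo (0:ℝ) 1
  ht : ∀ ξ, t ξ ∈ Ioo (1/8:ℝ) 1
  μ1 : ∀ ξ, μ ξ 1 = 0
  μx : ∀ ξ, μ ξ (x ξ) = 1
  μx' : ∀ ξ ζ, ζ ≠ ξ → μ ξ (x ζ) = 0
  μt : ∀ ξ θ, μ ξ (t θ) = 0
  lam1 : ∀ θ, lam θ 1 = 0
  lamx : ∀ θ ζ, lam θ (x ζ) = 0
  lamt : ∀ θ, lam θ (t θ) = 1
  lamt' : ∀ θ η, η ≠ θ → lam θ (t η) = 0
  ν1 : ∀ ξ, ν ξ 1 = 0
  νx : ∀ ξ ζ, ν ξ (x ζ) = 0
  νt : ∀ ξ θ, ν ξ (t θ) = 0
  νz : ∀ ξ, ν ξ (z ξ) = 1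
  main : ∀ h : ℝ → ℝ, Antitone h → ∃ ξ, h (x ξ) = z ξ ∨
    ∃ a b : ℝ, 0 ≤ a ∧ a < b ∧ b ≤ 1 ∧ ∃ q : ℚ, ∃ v : ℝ, μ ξ v = 0 ∧
      ∀ y ∈ Ioo a b, h y = q * y + v

section

variable (D : Datum)

/-- The generated set. -/
inductive B : ℝ → Prop
  | gen (ζ : D.ι) : B (D.x ζ)
  | bin (b : Bool) (y : ℝ) : B y → B (l b y)
  | dd (θ : D.ι) (y : ℝ) : B y → (∀ s, B (D.Y θ s)) → (∀ s, y ≠ E s (D.Y θ s)) →
      B (D.t θ - y / 8)

/-- The letters. -/
inductive Letter (ι : Type)
  | bin (b : Bool) : Letter ι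
  | dd (θ : ι) : Letter ι

/-- The action of a letter. -/
noncomputable def act : Letter D.ι → ℝ → ℝ
  | Letter.bin b, y => l b y
  | Letter.dd θ, y => D.t θ - y / 8

/-- The action of a word. -/
noncomputable def actW : List (Letter D.ι) → ℝ → ℝ
  | [], y => y
  | a :: w, y => act D a (actW w y)

/-- The free superset. -/
inductive Bp : ℝ → Prop
  | gen (ζ : D.ι) : Bp (D.x ζ)
  | act (a : Letter D.ι) (y : ℝ) : Bp y → Bp (act D a y)

variable {D}

theorem B.toBp {y : ℝ} (h : B D y) : Bp D y := by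
  induction h with
  | gen ζ => exact Bp.gen ζ
  | bin b y _ ih => exact Bp.act (Letter.bin b) y ih
  | dd θ y _ _ _ ih _ => exact Bp.act (Letter.dd θ) y ih

theorem map_l (φ : ℝ →ₗ[ℚ] ℚ) (h1 : φ 1 = 0) (b : Bool) (y : ℝ) : φ (l b y) = φ y / 2 := by
  cases b
  · have : l false y = (1/2 : ℚ) • y := by
      rw [l_false, Rat.smul_def]; push_cast; ring
    rw [this, map_smul, smul_eq_mul]; ring
  · have : l true y = (1/2 : ℚ) • y + (1/2 : ℚ) • (1:ℝ) := by
      rw [l_true, Rat.smul_def, Rat.smul_def]; push_cast; ring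
    rw [this, map_add, map_smul, map_smul, h1, smul_eq_mul, smul_eq_mul]; ring

theorem map_dd (φ : ℝ →ₗ[ℚ] ℚ) (t y : ℝ) : φ (t - y / 8) = φ t - φ y / 8 := by
  have : t - y / 8 = t - (1/8 : ℚ) • y := by
    rw [Rat.smul_def]; push_cast; ring
  rw [this, map_sub, map_smul, smul_eq_mul]; ring

theorem map_affine (φ : ℝ →ₗ[ℚ] ℚ) (q : ℚ) (y v : ℝ) : φ (q * y + v) = q * φ y + φ v := by
  have : (q:ℝ) * y + v = q • y + v := by
    rw [Rat.smul_def]
  rw [this, map_add, map_smul, smul_eq_mul]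

theorem map_rat (φ : ℝ →ₗ[ℚ] ℚ) (h1 : φ 1 = 0) (c : ℚ) : φ (c : ℝ) = 0 := by
  have : (c : ℝ) = c • (1:ℝ) := by rw [Rat.smul_def]; ring
  rw [this, map_smul, h1, smul_zero]

theorem Bp.mem {y : ℝ} (h : Bp D y) : y ∈ Ioo (0:ℝ) 1 := by
  induction h with
  | gen ζ => exact D.hx ζ
  | act a y _ ih =>
    cases a with
    | bin b => exact l_mem b ih
    | dd θ =>
      have := D.ht θ
      simp only [Pool.Agent.Lib.MP_829c31_lc.act]
      exact ⟨by linarith [this.1, ih.2], by linarith [this.2, ih.1]⟩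

theorem Bp.lam_le {y : ℝ} (h : Bp D y) (θ : D.ι) : |D.lam θ y| ≤ 8 / 7 := by
  induction h with
  | gen ζ => rw [D.lamx]; norm_num
  | act a y _ ih =>
    rw [abs_le] at ih ⊢
    cases a with
    | bin b =>
      simp only [Pool.Agent.Lib.MP_829c31_lc.act]
      rw [map_l _ (D.lam1 θ)]
      exact ⟨by linarith [ih.1], by linarith [ih.2]⟩
    | dd η =>
      simp only [Pool.Agent.Lib.MP_829c31_lc.act]
      rw [map_dd]
      by_cases hη : η = θ
      · subst hη
        rw [D.lamt]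
        exact ⟨by linarith [ih.2], by linarith [ih.1]⟩
      · rw [D.lamt' θ η hη]
        exact ⟨by linarith [ih.2], by linarith [ih.1]⟩

theorem Bp.μ_le {y : ℝ} (h : Bp D y) (ζ : D.ι) : |D.μ ζ y| ≤ 1 := by
  induction h with
  | gen ξ =>
    by_cases hη : ξ = ζ
    · subst hη
      rw [D.μx]; norm_num
    · rw [D.μx' ζ ξ hη]; norm_num
  | act a y _ ih =>
    rw [abs_le] at ih ⊢
    cases a with
    | bin b =>
      simp only [Pool.Agent.Lib.MP_829c31_lc.act]
      rw [map_l _ (D.μ1 ζ)]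
      exact ⟨by linarith [ih.1], by linarith [ih.2]⟩
    | dd η =>
      simp only [Pool.Agent.Lib.MP_829c31_lc.act]
      rw [map_dd, D.μt]
      exact ⟨by linarith [ih.2], by linarith [ih.1]⟩

theorem Bp.ν_zero {y : ℝ} (h : Bp D y) (ξ : D.ι) : D.ν ξ y = 0 := by
  induction h with
  | gen ζ => exact D.νx ξ ζ
  | act a y _ ih =>
    cases a with
    | bin b =>
      simp only [Pool.Agent.Lib.MP_829c31_lc.act]
      rw [map_l _ (D.ν1 ξ), ih, zero_div]
    | dd η =>
      simp only [Pool.Agent.Lib.MP_829c31_lc.act]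
      rw [map_dd, D.νt, ih]; norm_num

/-- Unique decoding. -/
theorem act_inj {a a' : Letter D.ι} {y y' : ℝ} (hy : Bp D y) (hy' : Bp D y')
    (h : act D a y = act D a' y') : a = a' ∧ y = y' := by
  have hb : ∀ (θ : D.ι) (b : Bool) (y y' : ℝ), Bp D y → Bp D y' →
      D.t θ - y / 8 ≠ l b y' := by
    intro θ b y y' hy hy' heq
    have h1 := congrArg (D.lam θ) heq
    rw [map_dd, map_l _ (D.lam1 θ), D.lamt] at h1
    have h2 := abs_le.1 (hy.lam_le θ)
    have h3 := abs_le.1 (hy'.lam_le θ)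
    linarith [h2.1, h2.2, h3.1, h3.2]
  cases a with
  | bin b =>
    cases a' with
    | bin b' =>
      simp only [act] at h
      obtain ⟨rfl, rfl⟩ := l_inj hy.mem hy'.mem h
      exact ⟨rfl, rfl⟩
    | dd θ' => exact absurd h.symm (hb θ' b y' y hy' hy)
  | dd θ =>
    cases a' with
    | bin b' => exact absurd h (hb θ b' y y' hy hy')
    | dd θ' =>
      simp only [act] at h
      by_cases hθ : θ' = θ
      · subst hθ
        exact ⟨rfl, by linarith⟩
      · exfalso
        have h1 := congrArg (D.lam θ) h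
        rw [map_dd, map_dd, D.lamt, D.lamt' θ θ' hθ] at h1
        have h2 := abs_le.1 (hy.lam_le θ)
        have h3 := abs_le.1 (hy'.lam_le θ)
        linarith [h2.1, h2.2, h3.1, h3.2]

theorem gen_ne_act (ζ : D.ι) {a : Letter D.ι} {y : ℝ} (hy : Bp D y) : D.x ζ ≠ act D a y := by
  intro h
  have h1 := congrArg (D.μ ζ) h
  have h2 := abs_le.1 (hy.μ_le ζ)
  rw [D.μx] at h1
  cases a with
  | bin b =>
    simp only [act] at h1
    rw [map_l _ (D.μ1 ζ)] at h1
    linarith [h2.1, h2.2]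
  | dd θ =>
    simp only [act] at h1
    rw [map_dd, D.μt] at h1
    linarith [h2.1, h2.2]

/-- Inversion for the generated set. -/
theorem B.inv {a : Letter D.ι} {y : ℝ} (hy : Bp D y) (h : B D (act D a y)) :
    B D y ∧ ∀ θ, a = Letter.dd θ → (∀ s, B D (D.Y θ s)) ∧ ∀ s, y ≠ E s (D.Y θ s) := by
  generalize hu : act D a y = u at h
  cases h with
  | gen ζ => exact absurd hu.symm (gen_ne_act ζ hy)
  | bin b y' hy' =>
    have hu' : act D a y = act D (Letter.bin b) y' := hu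
    obtain ⟨rfl, rfl⟩ := act_inj hy hy'.toBp hu'
    exact ⟨hy', fun θ hθ => by cases hθ⟩
  | dd θ y' hy' h1 h2 =>
    have hu' : act D a y = act D (Letter.dd θ) y' := hu
    obtain ⟨rfl, rfl⟩ := act_inj hy hy'.toBp hu'
    refine ⟨hy', fun θ' hθ => ?_⟩
    cases hθ
    exact ⟨h1, h2⟩

theorem Bp.actW {y : ℝ} (hy : Bp D y) (w : List (Letter D.ι)) : Bp D (actW D w y) := by
  induction w with
  | nil => exact hy
  | cons a w ih => exact Bp.act a _ ih

theorem actW_append (u w : List (Letter D.ι)) (y : ℝ) :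
    actW D (u ++ w) y = actW D u (actW D w y) := by
  induction u with
  | nil => rfl
  | cons a u ih => simp only [List.cons_append, actW, ih]

theorem B.inv_word (u : List (Letter D.ι)) {y : ℝ} (hy : Bp D y) (h : B D (actW D u y)) :
    B D y := by
  induction u with
  | nil => exact h
  | cons a u ih => exact ih (B.inv (hy.actW u) h).1

theorem B.E {y : ℝ} (hy : B D y) (s : List Bool) : B D (E s y) := by
  induction s with
  | nil => exact hy
  | cons b s ih => exact B.bin b _ ih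

theorem actW_bin (s : List Bool) (y : ℝ) : actW D (s.map Letter.bin) y = E s y := by
  induction s with
  | nil => rfl
  | cons b s ih => simp only [List.map_cons, actW, act, Pool.Agent.Lib.MP_829c31_lc.E, ih]

theorem Bp.exists_word {y : ℝ} (h : Bp D y) : ∃ w ζ, y = Pool.Agent.Lib.MP_829c31_lc.actW D w (D.x ζ) := by
  induction h with
  | gen ζ => exact ⟨[], ζ, rfl⟩
  | act a y _ ih =>
    obtain ⟨w, ζ, rfl⟩ := ih
    exact ⟨a :: w, ζ, rfl⟩

theorem actW_affine (w : List (Letter D.ι)) : ∃ r : ℚ, ∃ T : ℝ, (∀ ξ, D.μ ξ T = 0) ∧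
    ∀ y : ℝ, actW D w y = r * y + T := by
  induction w with
  | nil => exact ⟨1, 0, fun ξ => map_zero _, fun y => by simp [actW]⟩
  | cons a w ih =>
    obtain ⟨r, T, hT, h⟩ := ih
    cases a with
    | bin b =>
      refine ⟨r / 2, l b T, fun ξ => ?_, fun y => ?_⟩
      · rw [map_l _ (D.μ1 ξ), hT, zero_div]
      · simp only [actW, act, h y]
        cases b
        · rw [l_false, l_false]; push_cast; ring
        · rw [l_true, l_true]; push_cast; ring
    | dd θ =>
      refine ⟨-r / 8, D.t θ - T / 8, fun ξ => ?_, fun y => ?_⟩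
      · rw [map_dd, D.μt, hT]; norm_num
      · simp only [actW, act, h y]
        push_cast; ring

theorem word_cases {ι : Type} (w : List (Letter ι)) : (∃ s : List Bool, w = s.map Letter.bin) ∨
    ∃ u θ, ∃ s : List Bool, w = u ++ Letter.dd θ :: s.map Letter.bin := by
  induction w with
  | nil => exact Or.inl ⟨[], rfl⟩
  | cons a w ih =>
    rcases ih with ⟨s, rfl⟩ | ⟨u, θ, s, rfl⟩
    · cases a with
      | bin b => exact Or.inl ⟨b :: s, rfl⟩
      | dd θ => exact Or.inr ⟨[], θ, s, rfl⟩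
    · exact Or.inr ⟨a :: u, θ, s, rfl⟩

theorem dichotomy (ψ : Set ℝ) (hψ : ∀ y ∈ ψ, B D y) :
    (∃ s, ∀ y, B D y → E s y ∈ ψ) ∨ ∃ f : ℝ → ℝ, StrictAntiOn f ψ ∧ ∀ y ∈ ψ, B D (f y) := by
  by_cases h : ∃ s, ∀ y, B D y → E s y ∈ ψ
  · exact Or.inl h
  · right
    push Not at h
    choose Ys hY1 hY2 using h
    obtain ⟨θ, hθ⟩ := D.Ysurj Ys
    refine ⟨fun y => D.t θ - y / 8, ?_, ?_⟩
    · intro a _ b _ hab
      simp only
      linarith
    · intro y hy
      refine B.dd θ y (hψ y hy) ?_ ?_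
      · intro s; rw [hθ]; exact hY1 s
      · intro s heq
        rw [hθ] at heq
        apply hY2 s
        rw [← heq]
        exact hy

theorem no_anti (f : ℝ → ℝ) (hf : StrictAntiOn f {y | B D y}) (hB : ∀ y, B D y → B D (f y)) :
    False := by
  -- extend to an antitone function
  have hbdd : f '' {y | B D y} ⊆ Ioo (0:ℝ) 1 := by
    rintro _ ⟨y, hy, rfl⟩
    exact (hB y hy).toBp.mem
  obtain ⟨h, hanti, heq⟩ := hf.antitoneOn.exists_antitone_extension
    (bddBelow_Ioo.mono hbdd) (bddAbove_Ioo.mono hbdd)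
  have heq' : ∀ y, B D y → h y = f y := fun y hy => (heq hy).symm
  obtain ⟨ξ, hξ | ⟨a, b, ha, hab, hb, q, v, hv, hq⟩⟩ := D.main h hanti
  · have h1 : B D (D.z ξ) := by
      rw [← hξ, heq' _ (B.gen ξ)]
      exact hB _ (B.gen ξ)
    have h2 := h1.toBp.ν_zero ξ
    rw [D.νz] at h2
    exact one_ne_zero h2
  · obtain ⟨e, he⟩ := exists_word ha hab hb
    obtain ⟨r, hr, c, hE⟩ := E_affine e
    -- g y = q' y + v'
    have hg : ∀ y, B D y → B D (((q * r : ℚ) : ℝ) * y + (q * c + v)) := by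
      intro y hy
      have h1 : h (E e y) = q * (E e y) + v := hq _ (he y hy.toBp.mem)
      have h2 : B D (h (E e y)) := by
        rw [heq' _ (hy.E e)]
        exact hB _ (hy.E e)
      rw [h1, hE y] at h2
      convert h2 using 1
      push_cast
      ring
    have hganti : ∀ y y', B D y → B D y' → y < y' →
        ((q * r : ℚ) : ℝ) * y' + (q * c + v) < ((q * r : ℚ) : ℝ) * y + (q * c + v) := by
      intro y y' hy hy' hyy'
      have h1 : h (E e y) = q * (E e y) + v := hq _ (he y hy.toBp.mem)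
      have h2 : h (E e y') = q * (E e y') + v := hq _ (he y' hy'.toBp.mem)
      rw [heq' _ (hy.E e), hE y] at h1
      rw [heq' _ (hy'.E e), hE y'] at h2
      have h3 := hf (hy.E e) (hy'.E e) (E_strictMono e hyy')
      rw [hE y, hE y'] at h3
      push_cast
      linarith
    set q' : ℚ := q * r with hq'
    set v' : ℝ := q * c + v with hv'
    have hv'0 : D.μ ξ v' = 0 := by
      rw [hv', map_affine, map_rat _ (D.μ1 ξ), hv]; ring
    have hq'neg : q' < 0 := by
      have h1 := hganti (l false (D.x ξ)) (D.x ξ) (B.bin false _ (B.gen ξ)) (B.gen ξ) (by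
        rw [l_false]; linarith [(D.hx ξ).1])
      rw [l_false] at h1
      have h2 := (D.hx ξ).1
      have h3 : (q' : ℝ) < 0 := by nlinarith
      exact_mod_cast h3
    obtain ⟨w, ζ, hw⟩ := (hg _ (B.gen ξ)).toBp.exists_word
    obtain ⟨sl, T, hT, hsl⟩ := actW_affine (D := D) w
    have h1 : (q' : ℝ) * D.x ξ + v' = sl * D.x ζ + T := by rw [hw, hsl]
    have h2 := congrArg (D.μ ξ) h1
    rw [map_affine _ q' (D.x ξ) v', map_affine _ sl (D.x ζ) T, D.μx, hv'0, hT] at h2
    have hζ : ζ = ξ := by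
      by_contra hne
      rw [D.μx' ξ ζ hne] at h2
      linarith
    subst hζ
    rw [D.μx] at h2
    have hslq : sl = q' := by linarith
    have hTv : T = v' := by
      rw [hslq] at h1
      linarith
    have hgw : ∀ y : ℝ, (q' : ℝ) * y + v' = actW D w y := by
      intro y; rw [hsl, hslq, hTv]
    rcases word_cases w with ⟨s, rfl⟩ | ⟨u, θ, s, rfl⟩
    · obtain ⟨r1, hr1, c1, hE1⟩ := E_affine s
      have e0 := hgw 0
      have e1 := hgw 1
      rw [actW_bin, hE1] at e0 e1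
      have : (q' : ℝ) = r1 := by linarith
      have : q' = r1 := by exact_mod_cast this
      linarith
    · have hmem : ∀ y, B D y → B D (act D (Letter.dd θ) (E s y)) := by
        intro y hy
        have h3 := hg y hy
        rw [hgw, actW_append] at h3
        have h4 := B.inv_word u (Bp.actW hy.toBp _) h3
        simp only [actW, actW_bin] at h4
        exact h4
      have h3 := (B.inv (hy := ((B.gen ζ).E s).toBp) (hmem _ (B.gen ζ))).2 θ rfl
      have h4 := hmem (D.Y θ s) (h3.1 s)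
      have h5 := (B.inv (hy := ((h3.1 s).E s).toBp) h4).2 θ rfl
      exact h5.2 s rfl

end

end Pool.Agent.Lib.MP_829c31_lc
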