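import Mathlib
import Pool.Agent.Lib.MP_829c31_lc.LemmaG
import Pool.Agent.Lib.MP_829c31_lc.Words

set_option autoImplicit false

namespace Pool.Agent.Lib.MP_829c31_lc

open Set Cardinal Topology Filter

/-! ### Recursion -/

theorem exists_rec {ι : Type} [LinearOrder ι] [WellFoundedLT ι] {β : Type}
    (F : ι → Set β → β) : ∃ p : ι → β, ∀ ξ, p ξ = F ξ (p '' Iio ξ) := by
  classical
  let G : (ξ : ι) → ((η : ι) → η < ξ → β) → β := fun ξ ih =>
    F ξ {b | ∃ η, ∃ h : η < ξ, ih η h = b}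
  refine ⟨WellFounded.fix (wellFounded_lt (α := ι)) G, fun ξ => ?_⟩
  rw [WellFounded.fix_eq]
  simp only [G]
  congr 1
  ext b
  simp

/-! ### Triangular families -/

theorem linInd_of_triangular {κ : Type} [LinearOrder κ] (v : κ → ℝ)
    (hv : ∀ i, v i ∉ Submodule.span ℚ (v '' Iio i)) : LinearIndependent ℚ v := by
  classical
  rw [linearIndependent_iff']
  intro s
  induction s using Finset.induction_on_max with
  | empty => intro g _ i hi; simp at hi
  | insert m s hm ih =>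
    intro g hg
    have hms : m ∉ s := fun h => lt_irrefl _ (hm m h)
    rw [Finset.sum_insert hms] at hg
    have hgm : g m = 0 := by
      by_contra hne
      apply hv m
      have h1 : v m = -((g m)⁻¹ • ∑ i ∈ s, g i • v i) := by
        have h2 : g m • v m = -∑ i ∈ s, g i • v i := eq_neg_of_add_eq_zero_left hg
        have h3 : v m = (g m)⁻¹ • (g m • v m) := by
          rw [smul_smul, inv_mul_cancel₀ hne, one_smul]
        rw [h3, h2, smul_neg]
      rw [h1]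
      refine Submodule.neg_mem _ (Submodule.smul_mem _ _ (Submodule.sum_mem _ ?_))
      intro i hi
      exact Submodule.smul_mem _ _ (Submodule.subset_span ⟨i, hm i hi, rfl⟩)
    rw [hgm, zero_smul, zero_add] at hg
    intro i hi
    rcases Finset.mem_insert.1 hi with rfl | hi
    · exact hgm
    · exact ih g hg i hi

theorem exists_coord {κ : Type} {v : κ → ℝ} (hv : LinearIndependent ℚ v) (k : κ) :
    ∃ φ : ℝ →ₗ[ℚ] ℚ, φ (v k) = 1 ∧ ∀ j, j ≠ k → φ (v j) = 0 := by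
  classical
  obtain ⟨g, hg⟩ := LinearMap.exists_extend ((Finsupp.lapply k) ∘ₗ hv.repr)
  have key : ∀ j, g (v j) = Finsupp.single j (1:ℚ) k := by
    intro j
    have h1 := LinearMap.congr_fun hg ⟨v j, Submodule.subset_span ⟨j, rfl⟩⟩
    simp only [LinearMap.coe_comp, Function.comp_apply, Submodule.coe_subtype] at h1
    rw [h1]
    simp only [Finsupp.lapply_apply]
    rw [hv.repr_eq_single j _ rfl]
  refine ⟨g, ?_, ?_⟩
  · rw [key, Finsupp.single_eq_same]
  · intro j hj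
    rw [key, Finsupp.single_eq_of_ne hj.symm]

/-! ### Cardinalities -/

theorem mk_sup_span_lt {V : Submodule ℚ ℝ} (hV : #V < 𝔠) (x : ℝ) :
    #(V ⊔ Submodule.span ℚ {x} : Submodule ℚ ℝ) < 𝔠 := by
  have hsub : ((V ⊔ Submodule.span ℚ {x} : Submodule ℚ ℝ) : Set ℝ) ⊆
      range (fun p : V × ℚ => (p.1 : ℝ) + p.2 • x) := by
    intro y hy
    obtain ⟨v, hv, w, hw, rfl⟩ := Submodule.mem_sup.1 hy
    obtain ⟨q, rfl⟩ := Submodule.mem_span_singleton.1 hw
    exact ⟨(⟨v, hv⟩, q), rfl⟩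
  calc #(V ⊔ Submodule.span ℚ {x} : Submodule ℚ ℝ)
      ≤ #(range (fun p : V × ℚ => (p.1 : ℝ) + p.2 • x)) := mk_le_mk_of_subset hsub
    _ ≤ #(V × ℚ) := mk_range_le
    _ < 𝔠 := by
      rw [mk_prod]
      simp only [lift_id]
      refine mul_lt_of_lt aleph0_le_continuum hV ?_
      rw [Cardinal.mk_eq_aleph0]
      exact aleph0_lt_continuum

theorem mk_span_lt {S : Set ℝ} (hne : S.Nonempty) (hS : #S < 𝔠) :
    #(Submodule.span ℚ S) < 𝔠 := by
  have : Nonempty S := hne.to_subtype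
  have h1 : Submodule.span ℚ S = LinearMap.range (Finsupp.linearCombination ℚ ((↑) : S → ℝ)) := by
    rw [Finsupp.range_linearCombination, Subtype.range_coe]
  have h2 : #(LinearMap.range (Finsupp.linearCombination ℚ ((↑) : S → ℝ))) ≤ #(S →₀ ℚ) := by
    have : Function.Surjective (LinearMap.rangeRestrict
      (Finsupp.linearCombination ℚ ((↑) : S → ℝ))) := LinearMap.surjective_rangeRestrict _
    exact mk_le_of_surjective this
  rw [h1]
  refine h2.trans_lt ?_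
  rw [mk_finsupp_of_infinite']
  refine max_lt hS ?_
  rw [Cardinal.mk_eq_aleph0]
  exact aleph0_lt_continuum

theorem exists_notMem {V : Submodule ℚ ℝ} (hV : #V < 𝔠) {a b : ℝ} (hab : a < b) :
    ∃ x ∈ Ioo a b, x ∉ V := by
  by_contra hcon
  push Not at hcon
  have h1 : #(Ioo a b) ≤ #V := mk_le_mk_of_subset (s := Ioo a b) (t := (V : Set ℝ)) hcon
  rw [mk_Ioo_real hab] at h1
  exact absurd (h1.trans_lt hV) (lt_irrefl _)

/-- The requirements on the triple chosen at a stage. -/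
def Good (h : ℝ → ℝ) (V : Submodule ℚ ℝ) (p : ℝ × ℝ × ℝ) : Prop :=
  p.1 ∈ Ioo (0:ℝ) 1 ∧ p.1 ∉ V ∧ p.2.1 ∉ V ⊔ Submodule.span ℚ {p.1} ∧ p.2.2 ∈ Ioo (1/8:ℝ) 1 ∧
  p.2.2 ∉ V ⊔ Submodule.span ℚ {p.1} ⊔ Submodule.span ℚ {p.2.1} ∧
  (h p.1 = p.2.1 ∨ ∀ x ∈ Ioo (0:ℝ) 1, x ∉ V → h x ∈ V ⊔ Submodule.span ℚ {x})

theorem exists_good (h : ℝ → ℝ) (V : Submodule ℚ ℝ) (hV : #V < 𝔠) : ∃ p, Good h V p := by
  by_cases hc : ∃ x ∈ Ioo (0:ℝ) 1, x ∉ V ∧ h x ∉ V ⊔ Submodule.span ℚ {x}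
  · obtain ⟨x, hx, hxV, hhx⟩ := hc
    obtain ⟨t, ht, htV⟩ := exists_notMem (mk_sup_span_lt (mk_sup_span_lt hV x) (h x))
      (show (1/8:ℝ) < 1 by norm_num)
    exact ⟨(x, h x, t), hx, hxV, hhx, ht, htV, Or.inl rfl⟩
  · push Not at hc
    obtain ⟨x, hx, hxV⟩ := exists_notMem hV (show (0:ℝ) < 1 by norm_num)
    obtain ⟨z, hz, hzV⟩ := exists_notMem (mk_sup_span_lt hV x) (show (0:ℝ) < 1 by norm_num)
    obtain ⟨t, ht, htV⟩ := exists_notMem (mk_sup_span_lt (mk_sup_span_lt hV x) z)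
      (show (1/8:ℝ) < 1 by norm_num)
    exact ⟨(x, z, t), hx, hxV, hzV, ht, htV, Or.inr hc⟩

/-- The generators attached to a set of triples. -/
def Gen (P : Set (ℝ × ℝ × ℝ)) : Set ℝ :=
  {1} ∪ (Prod.fst '' P ∪ ((fun p => p.2.1) '' P ∪ (fun p => p.2.2) '' P))

theorem mk_gen_lt {P : Set (ℝ × ℝ × ℝ)} (hP : #P < 𝔠) : #(Gen P) < 𝔠 := by
  unfold Gen
  refine (mk_union_le _ _).trans_lt (add_lt_of_lt aleph0_le_continuum ?_ ?_)
  · rw [mk_singleton]
    exact one_lt_aleph0.trans aleph0_lt_continuum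
  refine (mk_union_le _ _).trans_lt (add_lt_of_lt aleph0_le_continuum (mk_image_le.trans_lt hP) ?_)
  exact (mk_union_le _ _).trans_lt (add_lt_of_lt aleph0_le_continuum (mk_image_le.trans_lt hP)
    (mk_image_le.trans_lt hP))

/-! ### Enumerations -/

theorem mk_families : #(List Bool → ℝ) = 𝔠 := by
  rw [← Cardinal.power_def, Cardinal.mk_real, Cardinal.mk_eq_aleph0, continuum_power_aleph0]

theorem mk_antitone_le : #{h : ℝ → ℝ // Antitone h} ≤ 𝔠 := by
  classical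
  have hex : ∀ h : {h : ℝ → ℝ // Antitone h}, ∃ d : ℕ → ℝ,
      {x | ¬ ContinuousAt h.1 x} ∪ range ((↑) : ℚ → ℝ) = range d := by
    intro h
    apply Set.Countable.exists_eq_range
    · exact h.2.countable_not_continuousAt.union (countable_range _)
    · exact ⟨((0:ℚ):ℝ), Or.inr ⟨0, rfl⟩⟩
  choose d hd using hex
  let G : {h : ℝ → ℝ // Antitone h} → (ℕ → ℝ) × (ℕ → ℝ) := fun h => (d h, fun n => h.1 (d h n))
  have hG : Function.Injective G := by
    intro h h' heq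
    simp only [G, Prod.mk.injEq] at heq
    obtain ⟨h1, h2⟩ := heq
    have hval : ∀ x ∈ range (d h), h.1 x = h'.1 x := by
      rintro _ ⟨n, rfl⟩
      have := congrFun h2 n
      rw [this, h1]
    apply Subtype.ext
    funext x
    by_cases hx : x ∈ range (d h)
    · exact hval x hx
    · have hc : ContinuousAt h.1 x := by
        by_contra hc
        apply hx
        rw [← hd h]
        exact Or.inl hc
      have hc' : ContinuousAt h'.1 x := by
        by_contra hc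
        apply hx
        rw [h1, ← hd h']
        exact Or.inl hc
      have hdense : Dense (range ((↑) : ℚ → ℝ)) := Rat.denseRange_cast
      have : (𝓝[range ((↑) : ℚ → ℝ)] x).NeBot := mem_closure_iff_nhdsWithin_neBot.1 (hdense x)
      have t1 : Tendsto h.1 (𝓝[range ((↑) : ℚ → ℝ)] x) (𝓝 (h.1 x)) := hc.tendsto.mono_left nhdsWithin_le_nhds
      have t2 : Tendsto h'.1 (𝓝[range ((↑) : ℚ → ℝ)] x) (𝓝 (h'.1 x)) := hc'.tendsto.mono_left nhdsWithin_le_nhds
      have hev : ∀ᶠ y in 𝓝[range ((↑) : ℚ → ℝ)] x, h.1 y = h'.1 y := by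
        filter_upwards [self_mem_nhdsWithin] with y hy
        apply hval
        rw [← hd h]
        exact Or.inr hy
      exact tendsto_nhds_unique (t1.congr' hev) t2
  have h1 := mk_le_of_injective hG
  refine h1.trans ?_
  rw [mk_prod]
  simp only [lift_id]
  rw [← Cardinal.power_def, Cardinal.mk_real, Cardinal.mk_nat, continuum_power_aleph0,
    continuum_mul_self]

/-! ### The datum -/

theorem exists_datum : Nonempty Datum := by
  classical
  set ι : Type := (𝔠 : Cardinal.{0}).ord.ToType with hι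
  have hcard : #ι = 𝔠 := by rw [hι, mk_ord_toType]
  -- the enumerations
  obtain ⟨eY⟩ : Nonempty (ι ≃ (List Bool → ℝ)) := by
    rw [← Cardinal.eq, hcard, mk_families]
  obtain ⟨eH⟩ : Nonempty ({h : ℝ → ℝ // Antitone h} ↪ ι) := by
    rw [← Cardinal.le_def, hcard]
    exact mk_antitone_le
  have : Nonempty {h : ℝ → ℝ // Antitone h} := ⟨⟨fun _ => 0, antitone_const⟩⟩
  set H : ι → {h : ℝ → ℝ // Antitone h} := Function.invFun eH with hH
  have hHsurj : Function.Surjective H := Function.invFun_surjective eH.injective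
  -- the recursion
  have hstep : ∀ (ξ : ι) (P : Set (ℝ × ℝ × ℝ)), ∃ p, #P < 𝔠 →
      Good (H ξ).1 (Submodule.span ℚ (Gen P)) p := by
    intro ξ P
    by_cases hP : #P < 𝔠
    · obtain ⟨p, hp⟩ := exists_good (H ξ).1 (Submodule.span ℚ (Gen P))
        (mk_span_lt ⟨1, Or.inl rfl⟩ (mk_gen_lt hP))
      exact ⟨p, fun _ => hp⟩
    · exact ⟨(0, 0, 0), fun h => absurd h hP⟩
  choose F hF using hstep
  obtain ⟨p, hp⟩ := exists_rec F
  have hgood : ∀ ξ, Good (H ξ).1 (Submodule.span ℚ (Gen (p '' Iio ξ))) (p ξ) := by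
    intro ξ
    have h1 : #(p '' Iio ξ) < 𝔠 := mk_image_le.trans_lt (mk_Iio_toType_ord_lt ξ)
    have h2 := hF ξ (p '' Iio ξ) h1
    rwa [← hp ξ] at h2
  have hVcard : ∀ ξ, #(Submodule.span ℚ (Gen (p '' Iio ξ))) < 𝔠 := fun ξ =>
    mk_span_lt ⟨1, Or.inl rfl⟩ (mk_gen_lt (mk_image_le.trans_lt (mk_Iio_toType_ord_lt ξ)))
  -- the triangular family
  let κ : Type := WithBot (ι ×ₗ Fin 3)
  let comp : ι → Fin 3 → ℝ := fun ξ j => ![(p ξ).1, (p ξ).2.1, (p ξ).2.2] j
  let v : κ → ℝ := fun k => WithBot.recBotCoe (C := fun _ => ℝ) 1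
    (fun q => comp (ofLex q).1 (ofLex q).2) k
  have hvbot : v ⊥ = 1 := rfl
  have hvcoe : ∀ ξ j, v ((toLex (ξ, j) : ι ×ₗ Fin 3) : WithBot (ι ×ₗ Fin 3)) = comp ξ j :=
    fun ξ j => rfl
  have hgen : ∀ ξ η : ι, η < ξ → ∀ j, comp η j ∈ Gen (p '' Iio ξ) := by
    intro ξ η hη j
    unfold Gen
    have hmem : p η ∈ p '' Iio ξ := ⟨η, hη, rfl⟩
    fin_cases j
    · exact Or.inr (Or.inl ⟨p η, hmem, rfl⟩)
    · exact Or.inr (Or.inr (Or.inl ⟨p η, hmem, rfl⟩))
    · exact Or.inr (Or.inr (Or.inr ⟨p η, hmem, rfl⟩))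
  have hone : ∀ ξ : ι, (1:ℝ) ∈ Gen (p '' Iio ξ) := fun ξ => Or.inl rfl
  -- description of what is below an index
  have hbelow : ∀ (ξ : ι) (j : Fin 3) (W : Submodule ℚ ℝ),
      Submodule.span ℚ (Gen (p '' Iio ξ)) ≤ W → (∀ i, i < j → comp ξ i ∈ W) →
      Submodule.span ℚ (v '' Iio ((toLex (ξ, j) : ι ×ₗ Fin 3) : WithBot (ι ×ₗ Fin 3))) ≤ W := by
    intro ξ j W hW hlow
    rw [Submodule.span_le]
    rintro _ ⟨k, hk, rfl⟩
    induction k using WithBot.recBotCoe with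
    | bot => exact hW (Submodule.subset_span (hone ξ))
    | coe q =>
      obtain ⟨⟨η, i⟩, rfl⟩ : ∃ q' : ι × Fin 3, toLex q' = q := ⟨ofLex q, rfl⟩
      rw [mem_Iio, WithBot.coe_lt_coe, Prod.Lex.toLex_lt_toLex] at hk
      rw [SetLike.mem_coe, hvcoe]
      rcases hk with hk | ⟨hk1, hk2⟩
      · exact hW (Submodule.subset_span (hgen ξ η hk i))
      · simp only at hk1 hk2
        subst hk1
        exact hlow i hk2
  have hli : LinearIndependent ℚ v := by
    apply linInd_of_triangular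
    intro k
    induction k using WithBot.recBotCoe with
    | bot =>
      have : v '' Iio (⊥ : WithBot (ι ×ₗ Fin 3)) = ∅ := by simp
      rw [this, hvbot, Submodule.span_empty]
      simp
    | coe q =>
      obtain ⟨⟨ξ, j⟩, rfl⟩ : ∃ q' : ι × Fin 3, toLex q' = q := ⟨ofLex q, rfl⟩
      obtain ⟨g1, g2, g3, g4, g5, g6⟩ := hgood ξ
      rw [hvcoe]
      intro hmem
      have hx1 : (p ξ).1 ∈ Submodule.span ℚ {(p ξ).1} := Submodule.mem_span_singleton_self _
      have hz1 : (p ξ).2.1 ∈ Submodule.span ℚ {(p ξ).2.1} := Submodule.mem_span_singleton_self _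
      fin_cases j
      · exact g2 (hbelow ξ 0 _ le_rfl (fun i hi => absurd hi (Fin.not_lt_zero i)) hmem)
      · refine g3 (hbelow ξ 1 _ le_sup_left (fun i hi => ?_) hmem)
        have hi0 : i = 0 := by
          fin_cases i
          · rfl
          · simp at hi
          · exact absurd hi (by decide)
        subst hi0
        exact (le_sup_right : Submodule.span ℚ {(p ξ).1} ≤ _) hx1
      · refine g5 (hbelow ξ 2 _ (le_sup_left.trans le_sup_left) (fun i hi => ?_) hmem)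
        fin_cases i
        · exact (le_sup_right.trans le_sup_left : Submodule.span ℚ {(p ξ).1} ≤ _) hx1
        · exact (le_sup_right : Submodule.span ℚ {(p ξ).2.1} ≤ _) hz1
        · exact absurd hi (lt_irrefl _)
  have hcoord : ∀ (ξ : ι) (j : Fin 3), ∃ φ : ℝ →ₗ[ℚ] ℚ, φ (comp ξ j) = 1 ∧ φ 1 = 0 ∧
      ∀ η i, (η, i) ≠ (ξ, j) → φ (comp η i) = 0 := by
    intro ξ j
    obtain ⟨φ, h1, h2⟩ := exists_coord hli ((toLex (ξ, j) : ι ×ₗ Fin 3) : WithBot (ι ×ₗ Fin 3))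
    refine ⟨φ, h1, ?_, ?_⟩
    · exact h2 ⊥ (WithBot.bot_ne_coe)
    · intro η i hne
      have := h2 ((toLex (η, i) : ι ×ₗ Fin 3) : WithBot (ι ×ₗ Fin 3)) (by
        intro heq
        apply hne
        have h3 := WithBot.coe_injective heq
        exact toLex.injective h3)
      exact this
  choose φ hφ1 hφ2 hφ3 using hcoord
  refine ⟨{
    ι := ι
    x := fun ξ => comp ξ 0
    z := fun ξ => comp ξ 1
    t := fun ξ => comp ξ 2
    Y := eY
    μ := fun ξ => φ ξ 0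
    lam := fun ξ => φ ξ 2
    ν := fun ξ => φ ξ 1
    Ysurj := eY.surjective
    hx := fun ξ => (hgood ξ).1
    ht := fun ξ => (hgood ξ).2.2.2.1
    μ1 := fun ξ => hφ2 ξ 0
    μx := fun ξ => hφ1 ξ 0
    μx' := fun ξ ζ h => hφ3 ξ 0 ζ 0 (by simpa using h)
    μt := fun ξ θ => hφ3 ξ 0 θ 2 (by simp)
    lam1 := fun θ => hφ2 θ 2
    lamx := fun θ ζ => hφ3 θ 2 ζ 0 (by simp)
    lamt := fun θ => hφ1 θ 2
    lamt' := fun θ η h => hφ3 θ 2 η 2 (by simpa using h)
    ν1 := fun ξ => hφ2 ξ 1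
    νx := fun ξ ζ => hφ3 ξ 1 ζ 0 (by simp)
    νt := fun ξ θ => hφ3 ξ 1 θ 2 (by simp)
    νz := fun ξ => hφ1 ξ 1
    main := ?_ }⟩
  intro h hh
  obtain ⟨ξ, hξ⟩ := hHsurj ⟨h, hh⟩
  refine ⟨ξ, ?_⟩
  obtain ⟨g1, g2, g3, g4, g5, g6⟩ := hgood ξ
  rw [hξ] at g6
  rcases g6 with g6 | g6
  · exact Or.inl g6
  · right
    obtain ⟨a, b, ha, hab, hb, q, w, hw, hq⟩ := lemmaG hh
      (Submodule.span ℚ (Gen (p '' Iio ξ))) (hVcard ξ) (by
        intro x hx hxV
        obtain ⟨v', hv', w', hw', heq⟩ := Submodule.mem_sup.1 (g6 x hx hxV)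
        obtain ⟨q, rfl⟩ := Submodule.mem_span_singleton.1 hw'
        refine ⟨q, v', hv', ?_⟩
        simp only at heq
        rw [← heq, Rat.smul_def]
        ring)
    refine ⟨a, b, ha, hab, hb, q, w, ?_, hq⟩
    -- the coordinate vanishes on the span
    have hker : Submodule.span ℚ (Gen (p '' Iio ξ)) ≤ LinearMap.ker (φ ξ 0) := by
      rw [Submodule.span_le]
      intro r hr
      rw [SetLike.mem_coe, LinearMap.mem_ker]
      rcases hr with hr | hr | hr | hr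
      · rw [mem_singleton_iff] at hr
        rw [hr]; exact hφ2 ξ 0
      · obtain ⟨_, ⟨η, hη, rfl⟩, rfl⟩ := hr
        exact hφ3 ξ 0 η 0 (by simpa using (ne_of_lt hη))
      · obtain ⟨_, ⟨η, hη, rfl⟩, rfl⟩ := hr
        exact hφ3 ξ 0 η 1 (by simp)
      · obtain ⟨_, ⟨η, hη, rfl⟩, rfl⟩ := hr
        exact hφ3 ξ 0 η 2 (by simp)
    exact LinearMap.mem_ker.1 (hker hw)

/-- The set of reals used in the counterexample. -/
theorem exists_set : ∃ S : Set ℝ, S.Nonempty ∧ S ⊆ Ioo 0 1 ∧ (∀ b, ∀ y ∈ S, l b y ∈ S) ∧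
    (∀ ψ ⊆ S, (∃ g : ℝ → ℝ, StrictMonoOn g S ∧ MapsTo g S ψ) ∨
      ∃ f : ℝ → ℝ, StrictAntiOn f ψ ∧ MapsTo f ψ S) ∧
    (∀ f : ℝ → ℝ, StrictAntiOn f S → ¬ MapsTo f S S) := by
  obtain ⟨D⟩ := exists_datum
  obtain ⟨ξ, -⟩ := D.main (fun _ => 0) antitone_const
  refine ⟨{y | B D y}, ⟨_, B.gen ξ⟩, fun y hy => hy.toBp.mem, fun b y hy => B.bin b y hy, ?_, ?_⟩
  · intro ψ hψ
    rcases dichotomy ψ hψ with ⟨s, hs⟩ | ⟨f, hf1, hf2⟩
    · exact Or.inl ⟨E s, (E_strictMono s).strictMonoOn _, fun y hy => hs y hy⟩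
    · exact Or.inr ⟨f, hf1, fun y hy => hf2 y hy⟩
  · intro f hf hmaps
    exact no_anti f hf (fun y hy => hmaps hy)

end Pool.Agent.Lib.MP_829c31_lc
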