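import Mathlib
import Pool.Agent.Lib.MP_829c31_lc.Words

set_option autoImplicit false

namespace Pool.Agent.Lib.MP_829c31_lc

open Set

/-- The point with coordinate `b` in block `k`; odd blocks are reversed. -/
noncomputable def e (k : ℕ) (b : ℝ) : ℝ := if Even k then k + b else k + 1 - b

theorem e_even {k : ℕ} (hk : Even k) (b : ℝ) : e k b = k + b := by simp [e, hk]
theorem e_odd {k : ℕ} (hk : ¬ Even k) (b : ℝ) : e k b = k + 1 - b := by simp [e, hk]

theorem e_mem (k : ℕ) {b : ℝ} (hb : b ∈ Ioo (0:ℝ) 1) : (k:ℝ) < e k b ∧ e k b < k + 1 := by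
  obtain ⟨h0, h1⟩ := hb
  by_cases hk : Even k
  · rw [e_even hk]; exact ⟨by linarith, by linarith⟩
  · rw [e_odd hk]; exact ⟨by linarith, by linarith⟩

theorem e_lt {k k' : ℕ} (hk : k < k') {b b' : ℝ} (hb : b ∈ Ioo (0:ℝ) 1) (hb' : b' ∈ Ioo (0:ℝ) 1) :
    e k b < e k' b' := by
  have h1 := (e_mem k hb).2
  have h2 := (e_mem k' hb').1
  have h3 : (k:ℝ) + 1 ≤ k' := by exact_mod_cast hk
  linarith

theorem e_floor (k : ℕ) {b : ℝ} (hb : b ∈ Ioo (0:ℝ) 1) : ⌊e k b⌋₊ = k := by
  obtain ⟨h0, h1⟩ := e_mem k hb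
  rw [Nat.floor_eq_iff]
  · exact ⟨h0.le, h1⟩
  · have : (0:ℝ) ≤ k := Nat.cast_nonneg k
    linarith

/-- The coordinate of a real inside its block. -/
noncomputable def co (r : ℝ) : ℝ := if Even ⌊r⌋₊ then r - ⌊r⌋₊ else ⌊r⌋₊ + 1 - r

theorem co_e (k : ℕ) {b : ℝ} (hb : b ∈ Ioo (0:ℝ) 1) : co (e k b) = b := by
  unfold co
  rw [e_floor k hb]
  by_cases hk : Even k
  · rw [if_pos hk, e_even hk]; ring
  · rw [if_neg hk, e_odd hk]; ring

/-- The order: alternating copies of `S` and its reverse. -/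
def A (S : Set ℝ) : Set ℝ := {r | ∃ k : ℕ, ∃ b ∈ S, r = e k b}

theorem e_mem_A {S : Set ℝ} (k : ℕ) {b : ℝ} (hb : b ∈ S) : e k b ∈ A S := ⟨k, b, hb, rfl⟩

theorem scale_lt {m m' : ℕ} (hm : m < m') {w w' : ℝ} (hw : 1/2 < w) (hw' : w' < 1) :
    w' / 2 ^ m' < w / 2 ^ m := by
  have h1 : (2:ℝ) ^ (m + 1) ≤ 2 ^ m' := pow_le_pow_right₀ (by norm_num) hm
  have h2 : (0:ℝ) < 2 ^ m := by positivity
  have h3 : (0:ℝ) < 2 ^ m' := by positivity
  rw [div_lt_div_iff₀ h3 h2]
  rw [pow_succ] at h1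
  nlinarith

/-- Scaled copies going down to `0`. -/
noncomputable def c (m : ℕ) (b : ℝ) : ℝ := ((b + 1) / 2) / 2 ^ m

/-- Scaled copies going up to `1`. -/
noncomputable def c' (m : ℕ) (b : ℝ) : ℝ := 1 - (1 - b / 2) / 2 ^ m

theorem c_mem {S : Set ℝ} (hl : ∀ b, ∀ y ∈ S, l b y ∈ S) (m : ℕ) {b : ℝ} (hb : b ∈ S) :
    c m b ∈ S := by
  induction m with
  | zero =>
    have := hl true b hb
    rw [l_true] at this
    simpa [c] using this
  | succ m ih =>
    have := hl false _ ih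
    rw [l_false] at this
    have h2 : c (m + 1) b = c m b / 2 := by unfold c; rw [pow_succ]; field_simp
    rwa [h2]

theorem c'_mem {S : Set ℝ} (hl : ∀ b, ∀ y ∈ S, l b y ∈ S) (m : ℕ) {b : ℝ} (hb : b ∈ S) :
    c' m b ∈ S := by
  induction m with
  | zero =>
    have := hl false b hb
    rw [l_false] at this
    simpa [c'] using this
  | succ m ih =>
    have := hl true _ ih
    rw [l_true] at this
    have h2 : c' (m + 1) b = (c' m b + 1) / 2 := by
      unfold c'; rw [pow_succ]; field_simp; ring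
    rwa [h2]

theorem c_strictMono (m : ℕ) : StrictMono (c m) := by
  intro a b hab
  unfold c
  have h2 : (0:ℝ) < 2 ^ m := by positivity
  exact div_lt_div_of_pos_right (by linarith) h2

theorem c'_strictMono (m : ℕ) : StrictMono (c' m) := by
  intro a b hab
  unfold c'
  have h2 : (0:ℝ) < 2 ^ m := by positivity
  have := div_lt_div_of_pos_right (show (1 - b / 2) < 1 - a / 2 by linarith) h2
  linarith

section

variable {S : Set ℝ} (hS : S ⊆ Ioo 0 1)

include hS

theorem e_lt_or {k k' : ℕ} {b b' : ℝ} (hb : b ∈ S) (hb' : b' ∈ S) (h : e k b < e k' b') :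
    k < k' ∨ k = k' := by
  rcases lt_trichotomy k k' with h1 | h1 | h1
  · exact Or.inl h1
  · exact Or.inr h1
  · exact absurd h (not_lt.2 (e_lt h1 (hS hb') (hS hb)).le)

/-- No embedding of the order into a bounded part. -/
theorem no_bdd (hne : S.Nonempty) (hno : ∀ f : ℝ → ℝ, StrictAntiOn f S → ¬ MapsTo f S S)
    (f : ℝ → ℝ) (hf : StrictMonoOn f (A S)) (hmaps : MapsTo f (A S) (A S)) (a : ℝ)
    (ha : ∀ r ∈ A S, f r < a) : False := by
  obtain ⟨b0, hb0⟩ := hne
  set u : ℕ → ℕ := fun k => ⌊f (e k b0)⌋₊ with hu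
  have hmono : Monotone u := by
    apply monotone_nat_of_le_succ
    intro k
    apply Nat.floor_le_floor
    exact (hf (e_mem_A k hb0) (e_mem_A (k + 1) hb0)
      (e_lt (Nat.lt_succ_self k) (hS hb0) (hS hb0))).le
  have hbdd : BddAbove (range u) := by
    refine ⟨⌊a⌋₊, ?_⟩
    rintro _ ⟨k, rfl⟩
    exact Nat.floor_le_floor (ha _ (e_mem_A k hb0)).le
  obtain ⟨K, hK⟩ : ∃ K, ∀ k, K ≤ k → u k = u K := by
    obtain ⟨K, hK⟩ := Nat.sSup_mem (range_nonempty u) hbdd
    refine ⟨K, fun k hk => le_antisymm ?_ (hmono hk)⟩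
    rw [hK]
    exact le_csSup hbdd ⟨k, rfl⟩
  set cc := u K with hcc
  have hblock : ∀ k, K < k → ∀ b ∈ S, ∃ b' ∈ S, f (e k b) = e cc b' := by
    intro k hk b hb
    obtain ⟨j, b', hb', hj⟩ := hmaps (e_mem_A k hb)
    refine ⟨b', hb', ?_⟩
    have h1 : cc ≤ ⌊f (e k b)⌋₊ := Nat.floor_le_floor
      (hf (e_mem_A K hb0) (e_mem_A k hb) (e_lt hk (hS hb0) (hS hb))).le
    have h2 : ⌊f (e k b)⌋₊ ≤ cc := by
      rw [← hK (k + 1) (by omega)]
      exact Nat.floor_le_floor
        (hf (e_mem_A k hb) (e_mem_A (k + 1) hb0) (e_lt (Nat.lt_succ_self k) (hS hb) (hS hb0))).le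
    rw [hj] at h1 h2 ⊢
    rw [e_floor j (hS hb')] at h1 h2
    rw [le_antisymm h2 h1]
  by_cases hc : Even cc
  · -- an odd block of the source lands in an even block
    set k := 2 * K + 1 with hk
    have hkodd : ¬ Even k := by rw [hk]; simp [parity_simps]
    apply hno (fun b => f (e k b) - cc)
    · intro b hb b' hb' hbb'
      have h1 : e k b' < e k b := by rw [e_odd hkodd, e_odd hkodd]; linarith
      have h2 := hf (e_mem_A k hb') (e_mem_A k hb) h1
      simp only
      linarith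
    · intro b hb
      obtain ⟨b', hb', h⟩ := hblock k (by omega) b hb
      simp only
      rw [h, e_even hc]
      simpa using hb'
  · set k := 2 * K + 2 with hk
    have hkeven : Even k := by rw [hk]; simp [parity_simps]
    apply hno (fun b => cc + 1 - f (e k b))
    · intro b hb b' hb' hbb'
      have h1 : e k b < e k b' := by rw [e_even hkeven, e_even hkeven]; linarith
      have h2 := hf (e_mem_A k hb) (e_mem_A k hb') h1
      simp only
      linarith
    · intro b hb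
      obtain ⟨b', hb', h⟩ := hblock k (by omega) b hb
      simp only
      rw [h, e_odd hc]
      simpa using hb'

/-- Compressing a tail into one block. -/
theorem compress {R : Set ℝ} (hR : R ⊆ A S) (M K : ℕ) (hMK : M ≤ K) (T G : ℕ → ℝ → ℝ)
    (hT1 : ∀ m, ∀ b ∈ S, T m b ∈ A S ∧ (K:ℝ) < T m b ∧ T m b < K + 1)
    (hT2 : ∀ m m', m < m' → ∀ b ∈ S, ∀ b' ∈ S, T m b < T m' b')
    (hG1 : ∀ k, M ≤ k → ∀ b ∈ S, e k b ∈ R → G k b ∈ S)
    (hG2 : ∀ k, M ≤ k → ∀ b ∈ S, ∀ b' ∈ S, e k b ∈ R → e k b' ∈ R → e k b < e k b' →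
      T (k - M) (G k b) < T (k - M) (G k b')) :
    ∃ K : ℕ, ∃ f : ℝ → ℝ, StrictMonoOn f R ∧ MapsTo f R (A S) ∧ ∀ r ∈ R, f r < K := by
  classical
  refine ⟨K + 1, fun r => if r < M then r else T (⌊r⌋₊ - M) (G ⌊r⌋₊ (co r)), ?_, ?_, ?_⟩
  · intro r hr r' hr' hrr'
    simp only
    obtain ⟨k, b, hb, rfl⟩ := hR hr
    obtain ⟨k', b', hb', rfl⟩ := hR hr'
    rw [e_floor k (hS hb), e_floor k' (hS hb'), co_e k (hS hb), co_e k' (hS hb')]
    by_cases h1 : e k b < M
    · rw [if_pos h1]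
      by_cases h2 : e k' b' < M
      · rw [if_pos h2]; exact hrr'
      · rw [if_neg h2]
        have hk' : M ≤ k' := by
          by_contra hlt
          push Not at hlt
          have h3 : (k':ℝ) + 1 ≤ M := by exact_mod_cast hlt
          exact h2 (lt_of_lt_of_le (e_mem k' (hS hb')).2 h3)
        have h4 := (hT1 (k' - M) _ (hG1 k' hk' b' hb' hr')).2.1
        have h5 : (M:ℝ) ≤ K := by exact_mod_cast hMK
        linarith
    · rw [if_neg h1]
      have h2 : ¬ e k' b' < M := by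
        push Not at h1 ⊢
        linarith
      rw [if_neg h2]
      have hk : M ≤ k := by
        by_contra hlt
        push Not at hlt
        have h3 : (k:ℝ) + 1 ≤ M := by exact_mod_cast hlt
        exact h1 (lt_of_lt_of_le (e_mem k (hS hb)).2 h3)
      rcases e_lt_or hS hb hb' hrr' with h3 | h3
      · exact hT2 _ _ (by omega) _ (hG1 k hk b hb hr) _ (hG1 k' (by omega) b' hb' hr')
      · subst h3
        exact hG2 k hk b hb b' hb' hr hr' hrr'
  · intro r hr
    simp only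
    obtain ⟨k, b, hb, rfl⟩ := hR hr
    rw [e_floor k (hS hb), co_e k (hS hb)]
    by_cases h1 : e k b < M
    · rw [if_pos h1]; exact hR hr
    · rw [if_neg h1]
      have hk : M ≤ k := by
        by_contra hlt
        push Not at hlt
        have h3 : (k:ℝ) + 1 ≤ M := by exact_mod_cast hlt
        exact h1 (lt_of_lt_of_le (e_mem k (hS hb)).2 h3)
      exact (hT1 _ _ (hG1 k hk b hb hr)).1
  · intro r hr
    simp only
    obtain ⟨k, b, hb, rfl⟩ := hR hr
    rw [e_floor k (hS hb), co_e k (hS hb)]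
    have h5 : (M:ℝ) ≤ K := by exact_mod_cast hMK
    push_cast
    by_cases h1 : e k b < M
    · rw [if_pos h1]; linarith
    · rw [if_neg h1]
      have hk : M ≤ k := by
        by_contra hlt
        push Not at hlt
        have h3 : (k:ℝ) + 1 ≤ M := by exact_mod_cast hlt
        exact h1 (lt_of_lt_of_le (e_mem k (hS hb)).2 h3)
      exact (hT1 _ _ (hG1 k hk b hb hr)).2.2

theorem core_ii (hl : ∀ b, ∀ y ∈ S, l b y ∈ S)
    (hd : ∀ ψ ⊆ S, (∃ g : ℝ → ℝ, StrictMonoOn g S ∧ MapsTo g S ψ) ∨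
      ∃ f : ℝ → ℝ, StrictAntiOn f ψ ∧ MapsTo f ψ S)
    {R : Set ℝ} (hR : R ⊆ A S) (hnot : ¬ ∃ f : ℝ → ℝ, StrictMonoOn f (A S) ∧ MapsTo f (A S) R) :
    ∃ K : ℕ, ∃ f : ℝ → ℝ, StrictMonoOn f R ∧ MapsTo f R (A S) ∧ ∀ r ∈ R, f r < K := by
  classical
  set ψ : ℕ → Set ℝ := fun k => {b | b ∈ S ∧ e k b ∈ R} with hψ
  have hψS : ∀ k, ψ k ⊆ S := fun k b hb => hb.1
  set full : ℕ → Prop := fun k => ∃ g : ℝ → ℝ, StrictMonoOn g S ∧ MapsTo g S (ψ k) with hfull
  have hnfull : ∀ k, ∃ f : ℝ → ℝ, ¬ full k → StrictAntiOn f (ψ k) ∧ MapsTo f (ψ k) S := by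
    intro k
    rcases hd (ψ k) (hψS k) with h | ⟨f, hf⟩
    · exact ⟨id, fun h' => absurd h h'⟩
    · exact ⟨f, fun _ => hf⟩
  choose D hD using hnfull
  by_cases hev : ∃ M, ∀ k, M ≤ k → Even k → ¬ full k
  · -- all late even blocks reverse-embed
    obtain ⟨M, hM⟩ := hev
    have hKodd : ¬ Even (2 * M + 1) := by simp [parity_simps]
    refine compress hS hR M (2 * M + 1) (by omega)
      (fun m b => e (2 * M + 1) (c m b)) (fun k b => if Even k then D k b else b) ?_ ?_ ?_ ?_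
    · intro m b hb
      have h1 := c_mem hl m hb
      exact ⟨e_mem_A _ h1, (e_mem _ (hS h1)).1, (e_mem _ (hS h1)).2⟩
    · intro m m' hm b hb b' hb'
      have h1 : c m' b' < c m b := scale_lt hm (by linarith [(hS hb).1]) (by linarith [(hS hb').2])
      rw [e_odd hKodd, e_odd hKodd]
      linarith
    · intro k hk b hb hbR
      by_cases hke : Even k
      · rw [if_pos hke]
        exact (hD k (hM k hk hke)).2 ⟨hb, hbR⟩
      · rw [if_neg hke]; exact hb
    · intro k hk b hb b' hb' hbR hbR' hlt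
      rw [e_odd hKodd, e_odd hKodd]
      by_cases hke : Even k
      · rw [if_pos hke, if_pos hke]
        rw [e_even hke, e_even hke] at hlt
        have h1 := (hD k (hM k hk hke)).1 ⟨hb, hbR⟩ ⟨hb', hbR'⟩ (by linarith)
        have h2 := c_strictMono (k - M) h1
        linarith
      · rw [if_neg hke, if_neg hke]
        rw [e_odd hke, e_odd hke] at hlt
        have h2 := c_strictMono (k - M) (show b' < b by linarith)
        linarith
  by_cases hod : ∃ M, ∀ k, M ≤ k → ¬ Even k → ¬ full k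
  · obtain ⟨M, hM⟩ := hod
    have hKev : Even (2 * M) := by simp
    refine compress hS hR M (2 * M) (by omega)
      (fun m b => e (2 * M) (c' m b)) (fun k b => if Even k then b else D k b) ?_ ?_ ?_ ?_
    · intro m b hb
      have h1 := c'_mem hl m hb
      exact ⟨e_mem_A _ h1, (e_mem _ (hS h1)).1, (e_mem _ (hS h1)).2⟩
    · intro m m' hm b hb b' hb'
      have h1 : c' m b < c' m' b' := by
        unfold c'
        have := scale_lt hm (w := 1 - b / 2) (w' := 1 - b' / 2)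
          (by linarith [(hS hb).2]) (by linarith [(hS hb').1])
        linarith
      rw [e_even hKev, e_even hKev]
      linarith
    · intro k hk b hb hbR
      by_cases hke : Even k
      · rw [if_pos hke]; exact hb
      · rw [if_neg hke]
        exact (hD k (hM k hk hke)).2 ⟨hb, hbR⟩
    · intro k hk b hb b' hb' hbR hbR' hlt
      rw [e_even hKev, e_even hKev]
      by_cases hke : Even k
      · rw [if_pos hke, if_pos hke]
        rw [e_even hke, e_even hke] at hlt
        have h2 := c'_strictMono (k - M) (show b < b' by linarith)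
        linarith
      · rw [if_neg hke, if_neg hke]
        rw [e_odd hke, e_odd hke] at hlt
        have h1 := (hD k (hM k hk hke)).1 ⟨hb', hbR'⟩ ⟨hb, hbR⟩ (by linarith)
        have h2 := c'_strictMono (k - M) h1
        linarith
  -- both kinds of full blocks occur infinitely often
  exfalso
  apply hnot
  push Not at hev hod
  have hnext : ∀ j m : ℕ, ∃ k, m < k ∧ (Even k ↔ Even j) ∧ full k := by
    intro j m
    by_cases hj : Even j
    · obtain ⟨k, hk1, hk2, hk3⟩ := hev (m + 1)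
      exact ⟨k, by omega, by simp [hj, hk2], hk3⟩
    · obtain ⟨k, hk1, hk2, hk3⟩ := hod (m + 1)
      refine ⟨k, by omega, ?_, hk3⟩
      constructor
      · intro h; exact absurd h hk2
      · intro h; exact absurd h hj
  choose nx hnx1 hnx2 hnx3 using hnext
  let n : ℕ → ℕ := fun j => Nat.rec (nx 0 0) (fun j m => nx (j + 1) m) j
  have hn0 : n 0 = nx 0 0 := rfl
  have hns : ∀ j, n (j + 1) = nx (j + 1) (n j) := fun j => rfl
  have hnmono : StrictMono n := by
    apply strictMono_nat_of_lt_succ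
    intro j
    rw [hns]
    exact hnx1 _ _
  have hnpar : ∀ j, Even (n j) ↔ Even j := by
    intro j
    cases j with
    | zero => rw [hn0]; exact hnx2 0 0
    | succ j => rw [hns]; exact hnx2 _ _
  have hnfull : ∀ j, full (n j) := by
    intro j
    cases j with
    | zero => rw [hn0]; exact hnx3 0 0
    | succ j => rw [hns]; exact hnx3 _ _
  choose G hG1 hG2 using hnfull
  refine ⟨fun r => e (n ⌊r⌋₊) (G ⌊r⌋₊ (co r)), ?_, ?_⟩
  · intro r hr r' hr' hrr'
    obtain ⟨k, b, hb, rfl⟩ := hr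
    obtain ⟨k', b', hb', rfl⟩ := hr'
    simp only
    rw [e_floor k (hS hb), e_floor k' (hS hb'), co_e k (hS hb), co_e k' (hS hb')]
    rcases e_lt_or hS hb hb' hrr' with h3 | h3
    · exact e_lt (hnmono h3) (hS (hG2 k hb).1) (hS (hG2 k' hb').1)
    · subst h3
      by_cases hke : Even k
      · have hnk : Even (n k) := (hnpar k).2 hke
        rw [e_even hke, e_even hke] at hrr'
        rw [e_even hnk, e_even hnk]
        have := hG1 k hb hb' (by linarith)
        linarith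
      · have hnk : ¬ Even (n k) := fun h => hke ((hnpar k).1 h)
        rw [e_odd hke, e_odd hke] at hrr'
        rw [e_odd hnk, e_odd hnk]
        have := hG1 k hb' hb (by linarith)
        linarith
  · intro r hr
    obtain ⟨k, b, hb, rfl⟩ := hr
    simp only
    rw [e_floor k (hS hb), co_e k (hS hb)]
    exact (hG2 k hb).2

end

/-- The three order-theoretic facts about the counterexample. -/
theorem order_part {S : Set ℝ} (hne : S.Nonempty) (hS : S ⊆ Ioo 0 1)
    (hl : ∀ b, ∀ y ∈ S, l b y ∈ S)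
    (hd : ∀ ψ ⊆ S, (∃ g : ℝ → ℝ, StrictMonoOn g S ∧ MapsTo g S ψ) ∨
      ∃ f : ℝ → ℝ, StrictAntiOn f ψ ∧ MapsTo f ψ S)
    (hno : ∀ f : ℝ → ℝ, StrictAntiOn f S → ¬ MapsTo f S S) :
    (∀ L : Set ↥(A S), IsLowerSet L → L ≠ Set.univ →
      Nonempty (↥(A S) ↪o ↥(Lᶜ)) ∧ IsEmpty (↥(A S) ↪o ↥L)) ∧
    (∀ (β : Type) [LinearOrder β], Nonempty (β ↪o ↥(A S)) → IsEmpty (↥(A S) ↪o β) →
      ∃ L : Set ↥(A S), IsLowerSet L ∧ L ≠ Set.univ ∧ Nonempty (β ↪o ↥L)) ∧
    ¬ WellFoundedLT ↥(A S) := by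
  classical
  have hpos : ∀ r ∈ A S, 0 < r := by
    rintro _ ⟨k, b, hb, rfl⟩
    have h1 := (e_mem k (hS hb)).1
    have h2 : (0:ℝ) ≤ k := Nat.cast_nonneg k
    linarith
  refine ⟨?_, ?_, ?_⟩
  · intro L hL hLne
    obtain ⟨a, ha⟩ := (Set.ne_univ_iff_exists_notMem L).1 hLne
    have hLlt : ∀ z ∈ L, (z : ℝ) < a := by
      intro z hz
      by_contra hcon
      push Not at hcon
      exact ha (hL (show a ≤ z from hcon) hz)
    constructor
    · -- shift
      set N : ℕ := ⌊(a:ℝ)⌋₊ + 1 with hN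
      have hshift : ∀ r ∈ A S, r + ((2 * N : ℕ) : ℝ) ∈ A S := by
        rintro _ ⟨k, b, hb, rfl⟩
        refine ⟨k + 2 * N, b, hb, ?_⟩
        by_cases hk : Even k
        · have h2 : Even (k + 2 * N) := by simp [hk, parity_simps]
          rw [e_even hk, e_even h2]; push_cast; ring
        · have h2 : ¬ Even (k + 2 * N) := by simp [hk, parity_simps]
          rw [e_odd hk, e_odd h2]; push_cast; ring
      have hout : ∀ z : ↥(A S), (⟨(z:ℝ) + ((2 * N : ℕ) : ℝ), hshift _ z.2⟩ : ↥(A S)) ∈ Lᶜ := by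
        intro z hz
        have h1 := hLlt _ hz
        simp only at h1
        have h2 := hpos _ z.2
        have h3 : (a:ℝ) < N := by
          rw [hN]; push_cast
          exact Nat.lt_floor_add_one (a:ℝ)
        push_cast at h1
        have h4 : (0:ℝ) ≤ N := Nat.cast_nonneg N
        linarith
      refine ⟨OrderEmbedding.ofStrictMono (fun z => ⟨⟨(z:ℝ) + ((2 * N : ℕ) : ℝ),
        hshift _ z.2⟩, hout z⟩) ?_⟩
      intro z z' hzz'
      rw [← Subtype.coe_lt_coe, ← Subtype.coe_lt_coe]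
      simp only
      have : (z:ℝ) < z' := hzz'
      linarith
    · refine ⟨fun F => ?_⟩
      set f : ℝ → ℝ := fun r => if h : r ∈ A S then ((F ⟨r, h⟩ : ↥(A S)) : ℝ) else 0 with hf
      have hfv : ∀ (r : ℝ) (h : r ∈ A S), f r = ((F ⟨r, h⟩ : ↥(A S)) : ℝ) := by
        intro r h
        simp only [hf, dif_pos h]
      refine no_bdd hS hne hno f ?_ ?_ a ?_
      · intro r hr r' hr' hrr'
        rw [hfv r hr, hfv r' hr']
        have h1 : F ⟨r, hr⟩ < F ⟨r', hr'⟩ := F.lt_iff_lt.2 hrr'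
        exact h1
      · intro r hr
        rw [hfv r hr]
        exact (F ⟨r, hr⟩ : ↥(A S)).2
      · intro r hr
        rw [hfv r hr]
        exact hLlt _ (F ⟨r, hr⟩).2
  · intro β _ ⟨g⟩ hempty
    have hnot : ¬ ∃ f : ℝ → ℝ, StrictMonoOn f (A S) ∧
        MapsTo f (A S) (range (fun x : β => ((g x : ↥(A S)) : ℝ))) := by
      rintro ⟨f, hf1, hf2⟩
      have hf2' : ∀ z : ↥(A S), ∃ x : β, ((g x : ↥(A S)) : ℝ) = f z := fun z => hf2 z.2
      choose h hh using hf2'
      apply hempty.false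
      refine OrderEmbedding.ofStrictMono h ?_
      intro z z' hzz'
      have h1 := hf1 z.2 z'.2 hzz'
      rw [← hh z, ← hh z'] at h1
      exact g.lt_iff_lt.1 h1
    obtain ⟨K, f, hf1, hf2, hf3⟩ := core_ii hS hl hd (R := range (fun x : β => ((g x : ↥(A S)) : ℝ)))
      (by rintro _ ⟨x, rfl⟩; exact (g x).2) hnot
    refine ⟨{z | (z:ℝ) < K}, ?_, ?_, ?_⟩
    · intro z z' hzz' hz
      have h1 : (z':ℝ) ≤ z := hzz'
      have h2 : (z:ℝ) < K := hz
      exact lt_of_le_of_lt h1 h2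
    · obtain ⟨b0, hb0⟩ := hne
      rw [Set.ne_univ_iff_exists_notMem]
      refine ⟨⟨e K b0, e_mem_A K hb0⟩, ?_⟩
      simp only [mem_ofPred_eq, not_lt]
      exact (e_mem K (hS hb0)).1.le
    · refine ⟨OrderEmbedding.ofStrictMono (fun x : β => ⟨⟨f (g x), hf2 ⟨x, rfl⟩⟩,
        hf3 _ ⟨x, rfl⟩⟩) ?_⟩
      intro x x' hxx'
      rw [← Subtype.coe_lt_coe, ← Subtype.coe_lt_coe]
      simp only
      exact hf1 ⟨x, rfl⟩ ⟨x', rfl⟩ (g.lt_iff_lt.2 hxx')
  · intro hwf
    obtain ⟨b0, hb0⟩ := hne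
    have h0 : Even 0 := by simp
    obtain ⟨m, ⟨j, rfl⟩, hmin⟩ := hwf.wf.has_min
      (range (fun m : ℕ => (⟨e 0 (c m b0), e_mem_A 0 (c_mem hl m hb0)⟩ : ↥(A S)))) (range_nonempty _)
    apply hmin _ ⟨j + 1, rfl⟩
    rw [← Subtype.coe_lt_coe]
    simp only
    rw [e_even h0, e_even h0]
    have := scale_lt (m := j) (m' := j + 1) (by omega) (w := (b0 + 1) / 2) (w' := (b0 + 1) / 2)
      (by linarith [(hS hb0).1]) (by linarith [(hS hb0).2])
    unfold c
    linarith

end Pool.Agent.Lib.MP_829c31_lc
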